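import Pool.Agent.H21.GH.Mot
import Pool.Graph.R_pool_sql_team_seeded_2aa45f1a.Results.MP_058a58_ag.HypergraphPoles

/-!
# Tate's conjecture on poles and graph hypersurfaces

For a finite simple graph `G` with the vertices `1, …, n` let `Ĝ` be the cone over `G`: the graph with
one more vertex, which is joined to all vertices of `G`. The graph hypersurface `X_G = kirS ℚ G` is the
zero set, in the affine space of the edges of `Ĝ` over `ℚ`, of the determinant of the reduced Laplacian
of `Ĝ` with variable weights of the edges. By the theorem of Kirchhoff this determinant is the sum of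
the products `∏_{e ∈ T} x_e` over the spanning trees `T` of `Ĝ`.

As in the library file `HypergraphPoles`, for a separated scheme `X` of finite type over `ℚ` and an
integer `m` let

* `L_m(X, s) = ∏_i L(Gr^W_{2m} H^{2m+i}_c(X), s)^{(-1)^i}`, the alternating product of the `L`-functions
  (the Euler products, which converge for `Re s > m + 1`) of the parts of weight `2m` of the cohomology
  with compact supports; `D.L m X t` is the value at `s = m + 1 + t`, for real `t > 0`;
* `D.χ m X = ∑_i (-1)^i rank H^i(B^m(W(X)))`, where `W(X)` is the weight complex of `X` (Gillet, Soulé)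
  and `B^m` the group of cycles of codimension `m` modulo homological equivalence.

For a smooth projective variety `Y` over `ℚ` these are `L(H^{2m}(Y), s)` and the rank of `B^m(Y)`.
`PoleFormula D X` says that for all `m` the function `L_m(X, s)` has a pole of order `D.χ m X` at
`s = m + 1` (in the sense of the problem); for smooth projective `Y` this is Tate's conjecture of
question Q1 for `Y`, all `m`.

**Theorem.** The following are equivalent: Tate's conjecture of question Q1 is true for all smooth
projective varieties over `ℚ`; the formula is true for all separated schemes of finite type over `ℚ`;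
the formula is true for the graph hypersurfaces `X_G` of all finite graphs `G`.
-/

set_option autoImplicit false

open CategoryTheory AlgebraicGeometry Pool.Agent.Y116.UV Pool.Agent.Z125.UN
  Pool.Agent.Q193.LT Pool.Agent.H21.GH

namespace Pool.Agent.Results.MP_058a58_ag.GraphHypersurfaces

lemma two_of_three {D : PoleData ℚ} (hD : IsPole D) : TwoOfThree (PoleFormula D) where
  iso hX e h m := by
    obtain ⟨h1, h2⟩ := hD.iso hX e m
    rw [← h1, ← h2]
    exact h m
  total {Z X U} a b hX ht hZ hU m := by
    obtain ⟨h1, h2⟩ := hD.triple a b hX ht m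
    rw [h1, h2]
    exact (hZ m).mul (hU m)
  opened {Z X U} a b hX ht hZ hX' m := by
    obtain ⟨h1, h2⟩ := hD.triple a b hX ht m
    have h3 := (hX' m).mul (hZ m).inv
    have h4 : D.L m X * (D.L m Z)⁻¹ = D.L m U := by
      rw [h1, mul_comm (D.L m Z), mul_inv_cancel_right]
    have h5 : D.χ m X + -D.χ m Z = D.χ m U := by
      rw [h2]
      ring
    rwa [h4, h5] at h3
  closed {Z X U} a b hX ht hX' hU m := by
    obtain ⟨h1, h2⟩ := hD.triple a b hX ht m
    have h3 := (hX' m).mul (hU m).inv
    have h4 : D.L m X * (D.L m U)⁻¹ = D.L m Z := by
      rw [h1, mul_inv_cancel_right]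
    have h5 : D.χ m X + -D.χ m U = D.χ m Z := by
      rw [h2]
      ring
    rwa [h4, h5] at h3

/-- **Tate's conjecture on poles and graph hypersurfaces.** See the explanations above. `hk` is
Hironaka's theorem. -/
theorem result {D : PoleData ℚ} (hD : IsPole D) (hk : Hironaka ℚ) :
    List.TFAE [
      ∀ Y : Sch ℚ, SmoothProj Y → PoleFormula D Y,
      ∀ X : Sch ℚ, FT True X → PoleFormula D X,
      ∀ (n : ℕ) (G : SimpleGraph (Fin n)), PoleFormula D (kirS ℚ G)] := by
  tfae_have 2 → 3 := fun h n G => h _ (ft_kirS G True)
  tfae_have 3 → 2 := fun h => by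
    have hp : PoleFormula D (aff ℚ ℚ) :=
      (two_of_three hD).iso (ft_kirS _ True) (kirS_point ℚ) (h 1 ⊥)
    exact universal frac_rat (bnd_pole hD hp) h
  tfae_have 2 → 1 := fun h Y hY => h Y hY.ft
  tfae_have 1 → 2 := fun h => by
    have hp : PoleFormula D (aff ℚ ℚ) := by
      refine hk 0 _ (two_of_three hD) (fun Y hY _ => h Y hY) (aff ℚ ℚ) (ft_aff True) ?_
      rw [topDim_aff, ringKrullDim_eq_zero_of_field]
      exact_mod_cast le_refl 0
    have hB := bnd_pole hD hp
    exact (all_iff hB).mpr ((sp_all_iff hk hB).mp h)
  tfae_finish

end Pool.Agent.Results.MP_058a58_ag.GraphHypersurfaces
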