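import Pool.Agent.H6.TW.Conv

/-!
# Tate's conjecture on the pole, with all Euler factors, and the weight-monodromy conjecture

`C` is the class of the smooth projective varieties over `ℚ` with their `ℓ`-adic cohomology, as
representations of the absolute Galois group of `ℚ` (coefficients in an algebraic closure of `ℚ_ℓ`), and
`C.Known` is the list of the known theorems on it which are used: Künneth formula, duality and hard Lefschetz
theorem, Grothendieck's monodromy theorem, the eigenvalues of Frobenius are Weil numbers, good reduction
outside a finite set, an elliptic curve with split multiplicative reduction at `p`. For a variety `X` over `ℚ`
and a number field `F` the `L`-function of `H^{2m}(X_F)` is the Euler product over ALL finite places of `F`, of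
good and bad reduction, with the invariants of inertia at the bad places, as in the problem (`X_F` is a variety
over `ℚ` with the same `L`-function and the same cycles). At the places above `p` the cohomology with
`ℓ = c p ≠ p` is used, `c` is an arbitrary function. The definitions are in `Pool.Agent.H6.TW.Defs`.

The problem mentions the Euler factors at the bad places and says that the product converges absolutely for
`Re s > m + 1`. For the bad places this is not known. We prove what the bad places contribute to the conjecture.

**(1)** Tate's conjecture for all `X`, `m` and `F` is true if and only if
* it is true for the Euler products over the places of good reduction, and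
* the local polynomials of the `H^{2m}` at all places have rational coefficients, and
* the weight-monodromy conjecture is true, for all varieties, all degrees (even and odd) and all places.

**(2)** Suppose that the local polynomials of the `H^{2m}` are rational. The following are equivalent: the
weight-monodromy conjecture (all `X`, all degrees, all places); the Euler products over all places converge
absolutely for `Re s > m + 1`, as asserted in the problem; for all `X`, `m`, `F` the pole of
`L(H^{2m}(X_F), s)` at `m + 1` has at most the order `b_{2m}(X)`; for all `X`, `m` and `δ > 0` there is `A` such
that for all `F` the order of this pole is at most `A + δ [F : ℚ]`. (No part of Tate's conjecture is assumed. So the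
orders for `X_F` are either all bounded by the Betti numbers, or they grow linearly in the degree of `F` for some
`X` and suitable `F`.)

**Proof.** Let `N` be the monodromy operator on `V = H^i(X)` at a place, `φ` a geometric Frobenius element.
If the weight-monodromy conjecture is false, then (duality) there are `x` in `V` and `a < j` with
`φ x = α x`, `α` of weight `i + j`, `N^a x ≠ 0`, `N^(a+1) x = 0`. Then `z = ∑ (-1)^k N^k x ⊗ N^(a-k) x` is a nonzero
vector in `H^(2i)(X × X)`, invariant under inertia, with the Frobenius eigenvalue `β = α² q^(-a)` of weight
`2 i + 2 e`, `e = j - a > 0`. Since the local polynomial is rational, the complex conjugate of `β` is an eigenvalue as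
well, and `q^(2i+2e)` is an eigenvalue on the inertia invariants of `H^(4i)(X⁴)`. The product with `4 e - 2` copies of
an elliptic curve with split multiplicative reduction has the eigenvalue `q^(m+1)` on the inertia invariants of
`H^(2m)`, where `m + 1 = 2 i + 2 e`. So this Euler factor has a pole at `m + 1`. The same is true for all places above the
given one of all larger number fields. We construct towers of quadratic extensions in which the place splits
completely. The Euler product over the good places has at most a zero of order `b_{2m}` at the edge, so the order
of the pole grows linearly in the tower, but the order predicted by Tate is bounded by the Betti number.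
-/

namespace Pool.Agent.Results.MP_058a58_ag.WeightMonodromy

open Pool.Agent.H6.TW

/-- **Tate's conjecture on the pole with all Euler factors, and weight-monodromy.** -/
theorem result (C : VarClass) (hC : C.Known) (c : Nat.Primes → Nat.Primes) (hc : ∀ p, c p ≠ p) :
    (C.Tate c ↔ C.TateGood c ∧ C.Rational c ∧ C.WeightMonodromy c) ∧
    (C.Rational c → List.TFAE
      [C.WeightMonodromy c, C.ConvergesAbs c, C.PolesLeBetti c, C.PolesSublinear c]) :=
  ⟨main₁ hC hc, main₃ hC hc⟩

end Pool.Agent.Results.MP_058a58_ag.WeightMonodromy
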